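import Pool.Agent.W458.FJ.Stm

/-! Part C1 of project FJ. -/

set_option autoImplicit false

namespace Pool.Agent.W64.FJ.C1

open Pool.Agent.W458.FJ

theorem pp_lcm {p k u v : ℕ} (hp : p.Prime) (hu : u ≠ 0) (hv : v ≠ 0)
    (h : p ^ k ∣ Nat.lcm u v) : p ^ k ∣ u ∨ p ^ k ∣ v := by
  rw [hp.pow_dvd_iff_le_factorization (Nat.lcm_ne_zero hu hv), Nat.factorization_lcm hu hv,
    Finsupp.sup_apply, le_sup_iff] at h
  rcases h with h | h
  · left
    rwa [hp.pow_dvd_iff_le_factorization hu]
  · right
    rwa [hp.pow_dvd_iff_le_factorization hv]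

theorem cnt_split {ι : Type} [Fintype ι] [DecidableEq ι] (a : ι → ℕ) (x y z : ι) (hxy : x ≠ y)
    (hxz : x ≠ z) (hyz : y ≠ z) (q : ℕ) :
    cnt Finset.univ a q = cnt (((Finset.univ.erase x).erase y).erase z) a q +
      (if q ∣ a x then 1 else 0) + (if q ∣ a y then 1 else 0) + (if q ∣ a z then 1 else 0) := by
  unfold cnt
  rw [Finset.card_filter, Finset.card_filter]
  have h1 := Finset.add_sum_erase (Finset.univ) (fun i => if q ∣ a i then 1 else 0)
    (Finset.mem_univ x)
  have h2 := Finset.add_sum_erase (Finset.univ.erase x) (fun i => if q ∣ a i then 1 else 0)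
    (show y ∈ Finset.univ.erase x by simp [hxy.symm])
  have h3 := Finset.add_sum_erase ((Finset.univ.erase x).erase y)
    (fun i => if q ∣ a i then 1 else 0)
    (show z ∈ (Finset.univ.erase x).erase y by simp [hxz.symm, hyz.symm])
  omega

theorem cnt_mono {ι : Type} (S : Finset ι) (a : ι → ℕ) {q h : ℕ} (hq : q ∣ h) :
    cnt S a h ≤ cnt S a q := by
  unfold cnt
  refine Finset.card_le_card fun i hi => ?_
  rw [Finset.mem_filter] at hi ⊢
  exact ⟨hi.1, hq.trans hi.2⟩

theorem dl_le (d₁ d₂ h : ℕ) : dl d₁ d₂ h ≤ 2 := by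
  unfold dl
  split_ifs <;> omega

theorem dl_two {d₁ d₂ h : ℕ} (h2 : 2 ≤ dl d₁ d₂ h) : h ∣ d₁ ∧ h ∣ d₂ := by
  unfold dl at h2
  split_ifs at h2 with h3 h4 h4
  · exact ⟨h3, h4⟩
  all_goals omega

theorem main : SUM → C1 := by
  intro hSUM ι _ _ a d₁ d₂ ha hd1 hd2 hreg x y z hxy hxz hyz hx hy hz
  set S : Finset ι := ((Finset.univ.erase x).erase y).erase z with hS
  have hsplit : ∀ q, cnt Finset.univ a q = cnt S a q +
      (if q ∣ a x then 1 else 0) + (if q ∣ a y then 1 else 0) + (if q ∣ a z then 1 else 0) :=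
    fun q => cnt_split a x y z hxy hxz hyz q
  set L₁ := Nat.lcm (a x) (a y) with hL1
  set t := Nat.gcd (a x) (a y) with ht
  set L₂ := Nat.lcm t (a z) with hL2
  have hax := ha x
  have hay := ha y
  have haz := ha z
  have ht0 : 0 < t := Nat.gcd_pos_of_pos_left _ hax
  have hL10 : 0 < L₁ := Nat.lcm_pos hax hay
  have hL20 : 0 < L₂ := Nat.lcm_pos ht0 haz
  have hLd1 : L₁ ∣ d₁ := Nat.lcm_dvd hx hy
  have htd : t ∣ d₂ := by
    by_cases h1 : t = 1
    · rw [h1]; exact one_dvd _
    · have h2 : 1 < t := by omega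
      have h3 := hreg t h2
      have h4 := hsplit t
      rw [if_pos (Nat.gcd_dvd_left _ _), if_pos (Nat.gcd_dvd_right _ _)] at h4
      exact (dl_two (d₁ := d₁) (d₂ := d₂) (h := t) (by omega)).2
  have hLd2 : L₂ ∣ d₂ := Nat.lcm_dvd htd hz
  have hone : ∀ q : ℕ, 1 < q → (q ∣ a x ∨ q ∣ a y ∨ q ∣ a z) → 1 ≤ cnt S a q →
      q ∣ d₁ ∧ q ∣ d₂ ∧ cnt S a q ≤ 1 := by
    intro q hq h1 h2
    have h3 := hreg q hq
    have h4 := hsplit q
    have h5 := dl_le d₁ d₂ q
    have h6 : 1 ≤ (if q ∣ a x then 1 else 0) + (if q ∣ a y then 1 else 0) +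
        (if q ∣ a z then 1 else 0) := by
      rcases h1 with h | h | h
      · rw [if_pos h]; omega
      · rw [if_pos h]; omega
      · rw [if_pos h]; omega
    have h7 := dl_two (d₁ := d₁) (d₂ := d₂) (h := q) (by omega)
    exact ⟨h7.1, h7.2, by omega⟩
  have hpp : ∀ p k h : ℕ, p.Prime → p ^ k ∣ h → (h ∣ L₁ ∨ h ∣ L₂) →
      (p ^ k ∣ a x ∨ p ^ k ∣ a y ∨ p ^ k ∣ a z) := by
    intro p k h hp hk hh
    rcases hh with hh | hh
    · rcases pp_lcm hp (by omega) (by omega) (hk.trans hh) with h1 | h1
      · exact Or.inl h1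
      · exact Or.inr (Or.inl h1)
    · rcases pp_lcm hp (by omega) (by omega) (hk.trans hh) with h1 | h1
      · exact Or.inl (h1.trans (Nat.gcd_dvd_left _ _))
      · exact Or.inr (Or.inr h1)
  have hmain : ∀ h, 1 < h → cnt S a h + dl L₁ L₂ h ≤ dl d₁ d₂ h := by
    intro h hh
    have hd1' : h ∣ L₁ → h ∣ d₁ := fun h1 => h1.trans hLd1
    have hd2' : h ∣ L₂ → h ∣ d₂ := fun h1 => h1.trans hLd2
    by_cases hm : cnt S a h = 0
    · rw [hm]
      unfold dl
      split_ifs <;> first | omega | (exfalso; tauto)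
    · by_cases hn : h ∣ L₁ ∨ h ∣ L₂
      · have hboth : h ∣ d₁ ∧ h ∣ d₂ := by
          constructor
          · rw [Nat.dvd_iff_prime_pow_dvd_dvd]
            intro p k hp hk
            by_cases hk0 : p ^ k = 1
            · rw [hk0]; exact one_dvd _
            · have h1 : 1 < p ^ k := by
                have := Nat.pos_of_ne_zero (pow_ne_zero k hp.ne_zero)
                omega
              exact (hone (p ^ k) h1 (hpp p k h hp hk hn)
                ((Nat.one_le_iff_ne_zero.mpr hm).trans (cnt_mono S a hk))).1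
          · rw [Nat.dvd_iff_prime_pow_dvd_dvd]
            intro p k hp hk
            by_cases hk0 : p ^ k = 1
            · rw [hk0]; exact one_dvd _
            · have h1 : 1 < p ^ k := by
                have := Nat.pos_of_ne_zero (pow_ne_zero k hp.ne_zero)
                omega
              exact (hone (p ^ k) h1 (hpp p k h hp hk hn)
                ((Nat.one_le_iff_ne_zero.mpr hm).trans (cnt_mono S a hk))).2.1
        have hp : h.minFac.Prime := Nat.minFac_prime (by omega)
        have hpd : h.minFac ∣ h := Nat.minFac_dvd h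
        have hpd1 : h.minFac ^ 1 ∣ h := by rw [pow_one]; exact hpd
        have hcm : cnt S a h ≤ cnt S a h.minFac := cnt_mono S a hpd
        have h1 := hpp _ 1 h hp hpd1 hn
        rw [pow_one] at h1
        have h2 := (hone h.minFac hp.one_lt h1 (by omega)).2.2
        have hdl : dl d₁ d₂ h = 2 := by
          unfold dl
          rw [if_pos hboth.1, if_pos hboth.2]
        rw [hdl]
        by_cases hb : h ∣ L₁ ∧ h ∣ L₂
        · exfalso
          have h3 := pp_lcm hp (by omega) (by omega) (hpd1.trans hb.1)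
          have h4 := pp_lcm hp (by omega) (by omega) (hpd1.trans hb.2)
          rw [pow_one] at h3 h4
          have h5 := hreg _ hp.one_lt
          have h6 := dl_le d₁ d₂ h.minFac
          have h7 := hsplit h.minFac
          have h8 : 2 ≤ (if h.minFac ∣ a x then 1 else 0) + (if h.minFac ∣ a y then 1 else 0) +
              (if h.minFac ∣ a z then 1 else 0) := by
            rcases h4 with h4 | h4
            · rw [if_pos (h4.trans (Nat.gcd_dvd_left _ _)),
                if_pos (h4.trans (Nat.gcd_dvd_right _ _))]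
              omega
            · rcases h3 with h3 | h3
              · rw [if_pos h3, if_pos h4]
                omega
              · rw [if_pos h3, if_pos h4]
                omega
          omega
        · have h9 : dl L₁ L₂ h ≤ 1 := by
            unfold dl
            split_ifs <;> first | omega | (exfalso; tauto)
          omega
      · have h3 : dl L₁ L₂ h = 0 := by
          unfold dl
          push Not at hn
          rw [if_neg hn.1, if_neg hn.2]
        have h4 := hreg h hh
        have h5 := hsplit h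
        omega
  have hfin := hSUM ι S a (fun i _ => ha i) L₁ L₂ d₁ d₂ hL10 hL20 hd1 hd2 hmain
  have h1 := Finset.add_sum_erase (Finset.univ) (fun i => a i - 1) (Finset.mem_univ x)
  have h2 := Finset.add_sum_erase (Finset.univ.erase x) (fun i => a i - 1)
    (show y ∈ Finset.univ.erase x by simp [hxy.symm])
  have h3 := Finset.add_sum_erase ((Finset.univ.erase x).erase y) (fun i => a i - 1)
    (show z ∈ (Finset.univ.erase x).erase y by simp [hxz.symm, hyz.symm])
  rw [← hS] at h3
  omega

end Pool.Agent.W64.FJ.C1
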